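import Pool.Agent.N576.MX2.D

set_option autoImplicit false

/-!
# Project MX2 (helper576): `ARTANH` and `PARAL`, by helper592
-/

namespace Pool.Agent.N592.MX2

open Pool.Agent.N576.MX2

/-- the square root -/
noncomputable def q (x : ℝ) : ℝ := Real.sqrt (9 * x ^ 2 - 4)

/-- the unit as a function of a real variable -/
noncomputable def lar (x : ℝ) : ℝ := (3 * x + q x) / 2

theorem q_sq (x : ℝ) (hx : 1 ≤ x) : q x ^ 2 = 9 * x ^ 2 - 4 := Real.sq_sqrt (by nlinarith)

theorem q_ge (x : ℝ) (hx : 1 ≤ x) : 2 * x ≤ q x :=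
  (Real.le_sqrt' (by linarith)).2 (by nlinarith)

theorem lar_ge (x : ℝ) (hx : 1 ≤ x) : 5 / 2 * x ≤ lar x := by
  have h := q_ge x hx
  unfold lar
  linarith

theorem la_eq (u : ℤ) : la u = lar (u : ℝ) := rfl

theorem logsub (u v : ℝ) (hu : 1 ≤ u) (huv : u ≤ v) :
    Real.log (lar v) - Real.log (lar u) ≤ 3 / 2 * ((v - u) / u) ∧
      0 ≤ Real.log (lar v) - Real.log (lar u) := by
  have hv : 1 ≤ v := hu.trans huv
  have h1 := q_sq u hu
  have h2 := q_sq v hv
  have h3 := q_ge u hu
  have h4 := q_ge v hv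
  have h5 : q v - q u ≤ 9 / 2 * (v - u) := by
    by_contra hc
    rw [not_le] at hc
    nlinarith
  have h6 : 0 ≤ q v - q u := by
    by_contra hc
    rw [not_le] at hc
    nlinarith
  have h7 := lar_ge u hu
  have h8 := lar_ge v hv
  have hl : 0 < lar u := by linarith
  have hl' : 0 < lar v := by linarith
  have h9 : lar v - lar u ≤ 15 / 4 * (v - u) := by
    unfold lar
    linarith
  have h10 : lar u ≤ lar v := by
    unfold lar
    linarith
  constructor
  · rw [← Real.log_div hl'.ne' hl.ne']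
    have h11 := Real.log_le_sub_one_of_pos (div_pos hl' hl)
    have h12 : lar v / lar u - 1 = (lar v - lar u) / lar u := by
      field_simp
    have h13 : (lar v - lar u) / lar u ≤ (15 / 4 * (v - u)) / (5 / 2 * u) := by
      apply div_le_div₀ <;> first | positivity | linarith
    have h14 : (15 / 4 * (v - u)) / (5 / 2 * u) = 3 / 2 * ((v - u) / u) := by
      have : u ≠ 0 := by linarith
      field_simp
      ring
    linarith
  · exact sub_nonneg.2 (Real.log_le_log hl h10)

theorem artanh_ser (κ t : ℝ) (hκ : 0 < κ) (hκ1 : κ < 1) (ht : 0 ≤ t) (ht1 : t ≤ 1) :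
    2 / 3 * κ ^ 3 * (t - t ^ 3) ≤ t * (Real.log (1 + κ) - Real.log (1 - κ)) -
      (Real.log (1 + κ * t) - Real.log (1 - κ * t)) := by
  have h1 := (Real.hasSum_log_sub_log_of_abs_lt_one (x := κ) (by
    rw [abs_lt]
    constructor <;> linarith)).mul_left t
  have h2 := Real.hasSum_log_sub_log_of_abs_lt_one (x := κ * t) (by
    rw [abs_lt]
    constructor <;> nlinarith)
  have h3 := h1.sub h2
  have h4 := le_hasSum h3 1 (fun k _ => by
    have h5 : t * (2 * (1 / (2 * (k : ℝ) + 1)) * κ ^ (2 * k + 1)) -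
        2 * (1 / (2 * (k : ℝ) + 1)) * (κ * t) ^ (2 * k + 1) =
        2 * (1 / (2 * (k : ℝ) + 1)) * κ ^ (2 * k + 1) * (t * (1 - t ^ (2 * k))) := by
      rw [mul_pow, pow_succ t]
      ring
    rw [h5]
    have h6 : t ^ (2 * k) ≤ 1 := pow_le_one₀ ht ht1
    have h7 : 0 ≤ 1 - t ^ (2 * k) := by linarith
    positivity)
  refine le_trans (le_of_eq ?_) h4
  norm_num
  ring

theorem artanh_ : ARTANH := by
  intro u i j hu hj hij
  have hU : (1 : ℝ) ≤ u := by exact_mod_cast hu
  have hJ : (1 : ℝ) ≤ j := by exact_mod_cast hj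
  have hI : (j : ℝ) + 1 ≤ i := by exact_mod_cast hij
  have hl : 2 < la u := by
    rw [la_eq]
    have := lar_ge u hU
    linarith
  unfold WW
  generalize la u = l at hl
  generalize (i : ℝ) = I at hI
  generalize (j : ℝ) = J at hJ hI
  have hl0 : l ≠ 0 := by linarith
  have hl2 : 4 < l ^ 2 := by nlinarith
  have hL : (0 : ℝ) < l ^ 2 + 1 := by positivity
  have hS : 0 < I + J := by linarith
  -- the parameters
  have hκ : 3 / 5 ≤ (l ^ 2 - 1) / (l ^ 2 + 1) := by
    rw [le_div_iff₀ hL]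
    linarith
  have hκ1 : (l ^ 2 - 1) / (l ^ 2 + 1) < 1 := by
    rw [div_lt_one hL]
    linarith
  have ht : 1 / (I + J) ≤ (I - J) / (I + J) := by
    apply div_le_div_of_nonneg_right _ hS.le
    linarith
  have ht1 : (I - J) / (I + J) < 1 := by
    rw [div_lt_one hS]
    linarith
  have ht0 : 0 < (I - J) / (I + J) := lt_of_lt_of_le (by positivity) ht
  have h1 := artanh_ser ((l ^ 2 - 1) / (l ^ 2 + 1)) ((I - J) / (I + J)) (by linarith) hκ1
    ht0.le ht1.le
  have e1 : Real.log (1 + (l ^ 2 - 1) / (l ^ 2 + 1)) - Real.log (1 - (l ^ 2 - 1) / (l ^ 2 + 1)) =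
      2 * Real.log l := by
    have a1 : 1 + (l ^ 2 - 1) / (l ^ 2 + 1) = 2 * l ^ 2 / (l ^ 2 + 1) := by
      field_simp
      ring
    have a2 : 1 - (l ^ 2 - 1) / (l ^ 2 + 1) = 2 / (l ^ 2 + 1) := by
      field_simp
      ring
    rw [a1, a2, ← Real.log_div (by positivity) (by positivity)]
    have a3 : 2 * l ^ 2 / (l ^ 2 + 1) / (2 / (l ^ 2 + 1)) = l ^ 2 := by
      field_simp
    rw [a3, Real.log_pow]
    norm_num
  have e2 : Real.log (1 + (l ^ 2 - 1) / (l ^ 2 + 1) * ((I - J) / (I + J))) -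
      Real.log (1 - (l ^ 2 - 1) / (l ^ 2 + 1) * ((I - J) / (I + J))) =
      Real.log ((I * l + J * l⁻¹) / (J * l + I * l⁻¹)) := by
    have a1 : 1 + (l ^ 2 - 1) / (l ^ 2 + 1) * ((I - J) / (I + J)) =
        2 * (I * l ^ 2 + J) / ((l ^ 2 + 1) * (I + J)) := by
      field_simp
      ring
    have a2 : 1 - (l ^ 2 - 1) / (l ^ 2 + 1) * ((I - J) / (I + J)) =
        2 * (J * l ^ 2 + I) / ((l ^ 2 + 1) * (I + J)) := by
      field_simp
      ring
    have hI0 : 0 < I := by linarith
    have hJ0 : 0 < J := by linarith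
    rw [a1, a2, ← Real.log_div (by positivity) (by positivity)]
    congr 1
    have hp : 0 < l := by linarith
    field_simp
  rw [e1, e2] at h1
  have h2 : 2 * (I - J) / (I + J) * Real.log l = (I - J) / (I + J) * (2 * Real.log l) := by ring
  rw [h2]
  refine le_trans ?_ h1
  -- the lower bound
  have h3 : (3 / 5 : ℝ) ^ 3 ≤ ((l ^ 2 - 1) / (l ^ 2 + 1)) ^ 3 := by
    apply pow_le_pow_left₀ (by norm_num) hκ
  have h4 : 1 / (I + J) * (2 / (I + J)) ≤ (I - J) / (I + J) - ((I - J) / (I + J)) ^ 3 := by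
    have a1 : (I - J) / (I + J) - ((I - J) / (I + J)) ^ 3 =
        (I - J) / (I + J) * (4 * (I * J) / (I + J) ^ 2) := by
      field_simp
      ring
    rw [a1]
    have a2 : 2 / (I + J) ≤ 4 * (I * J) / (I + J) ^ 2 := by
      rw [div_le_div_iff₀ hS (by positivity)]
      have a3 : I + J - 1 ≤ I * J := by nlinarith
      have a4 : (I + J) ≤ 2 * (I * J) := by linarith
      nlinarith
    exact mul_le_mul ht a2 (by positivity) ht0.le
  have h5 : 0 ≤ 1 / (I + J) * (2 / (I + J)) := by positivity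
  have h6 : 1 / (100 * (I + J) ^ 2) ≤ 2 / 3 * (3 / 5) ^ 3 * (1 / (I + J) * (2 / (I + J))) := by
    have a1 : 2 / 3 * (3 / 5 : ℝ) ^ 3 * (1 / (I + J) * (2 / (I + J))) =
        (36 / 125) / (I + J) ^ 2 := by
      field_simp
      norm_num
    rw [a1, div_le_div_iff₀ (by positivity) (by positivity)]
    nlinarith [sq_nonneg (I + J)]
  refine h6.trans ?_
  have h7 : 2 / 3 * (3 / 5 : ℝ) ^ 3 ≤ 2 / 3 * ((l ^ 2 - 1) / (l ^ 2 + 1)) ^ 3 := by linarith
  exact mul_le_mul h7 h4 h5 (by positivity)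

theorem abs_log_le (x a : ℝ) (hx : 0 < x) (h1 : x - 1 ≤ a) (h2 : x⁻¹ - 1 ≤ a) :
    |Real.log x| ≤ a := by
  rw [abs_le]
  constructor
  · have h3 := Real.log_le_sub_one_of_pos (inv_pos.2 hx)
    rw [Real.log_inv] at h3
    linarith
  · have h3 := Real.log_le_sub_one_of_pos hx
    linarith

theorem log_diff (U V : ℝ) (hU : 1 ≤ U) (hV : 1 ≤ V) :
    |Real.log (lar U) - Real.log (lar V)| ≤ |U - V| / U * (3 + 2 * Real.log (lar U)) := by
  have hF : 0 ≤ Real.log (lar U) := Real.log_nonneg (by have := lar_ge U hU; linarith)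
  have hF' : 0 ≤ Real.log (lar V) := Real.log_nonneg (by have := lar_ge V hV; linarith)
  have hU0 : 0 < U := by linarith
  have hV0 : 0 < V := by linarith
  rcases le_total U V with h | h
  · have h1 := logsub U V hU h
    rw [abs_sub_comm, abs_of_nonneg h1.2, abs_sub_comm, abs_of_nonneg (sub_nonneg.2 h)]
    have h2 : 0 ≤ (V - U) / U := div_nonneg (sub_nonneg.2 h) hU0.le
    have h3 : 0 ≤ (V - U) / U * Real.log (lar U) := mul_nonneg h2 hF
    linarith [h1.1]
  · have h1 := logsub V U hV h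
    rw [abs_of_nonneg h1.2, abs_of_nonneg (sub_nonneg.2 h)]
    have h2 : 0 ≤ (U - V) / U := div_nonneg (sub_nonneg.2 h) hU0.le
    have h3 : 0 ≤ (U - V) / U * Real.log (lar U) := mul_nonneg h2 hF
    rcases le_total U (2 * V) with h4 | h4
    · have h5 : (U - V) / V ≤ 2 * ((U - V) / U) := by
        rw [mul_div_assoc', div_le_div_iff₀ hV0 hU0]
        nlinarith
      linarith [h1.1]
    · have h5 : 1 / 2 ≤ (U - V) / U := by
        rw [le_div_iff₀ hU0]
        linarith
      nlinarith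

theorem w_bound (U V : ℝ) (hU : 1 ≤ U) (hV : 1 ≤ V) :
    |1 - q U * V ^ 2 / (q V * U ^ 2)| ≤ 5 / 2 * (|U - V| / U) := by
  have hU0 : 0 < U := by linarith
  have hV0 : 0 < V := by linarith
  have h1 := q_sq U hU
  have h2 := q_sq V hV
  have h3 := q_ge U hU
  have h4 := q_ge V hV
  have hqU : 0 < q U := by linarith
  have hqV : 0 < q V := by linarith
  have h5 : q U ≤ 3 * U := by
    by_contra hc
    rw [not_le] at hc
    nlinarith
  have hprod : |q V * U - q U * V| * (q V * U + q U * V) = 4 * (|U - V| * (U + V)) := by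
    have a1 : (q V * U - q U * V) * (q V * U + q U * V) = -4 * ((U - V) * (U + V)) := by
      have : (q V * U - q U * V) * (q V * U + q U * V) = q V ^ 2 * U ^ 2 - q U ^ 2 * V ^ 2 := by
        ring
      rw [this, h1, h2]
      ring
    have a2 : 0 < q V * U + q U * V := by positivity
    have a3 : 0 < U + V := by positivity
    calc |q V * U - q U * V| * (q V * U + q U * V) =
        |(q V * U - q U * V) * (q V * U + q U * V)| := by
          rw [abs_mul, abs_of_pos a2]
      _ = 4 * (|U - V| * (U + V)) := by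
          rw [a1, abs_mul, abs_mul, abs_of_pos a3]
          norm_num
  have hge : 4 * (U * V) ≤ q V * U + q U * V := by nlinarith
  have h6 : |q V * U - q U * V| ≤ 2 * |U - V| := by
    have a1 : |q V * U - q U * V| * (4 * (U * V)) ≤ 4 * (|U - V| * (U + V)) := by
      rw [← hprod]
      exact mul_le_mul_of_nonneg_left hge (abs_nonneg _)
    have a2 : U + V ≤ 2 * (U * V) := by nlinarith
    have a3 : 4 * (|U - V| * (U + V)) ≤ 2 * |U - V| * (4 * (U * V)) := by
      have := abs_nonneg (U - V)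
      nlinarith
    exact le_of_mul_le_mul_right (a1.trans a3) (by positivity)
  have h7 : 1 - q U * V ^ 2 / (q V * U ^ 2) =
      (U * (q V * U - q U * V) + q U * V * (U - V)) / (q V * U ^ 2) := by
    field_simp
    ring
  rw [h7, abs_div, abs_of_pos (show 0 < q V * U ^ 2 by positivity), div_le_iff₀ (by positivity)]
  have h8 : |U * (q V * U - q U * V) + q U * V * (U - V)| ≤
      U * (2 * |U - V|) + 3 * U * V * |U - V| := by
    refine (abs_add_le _ _).trans (add_le_add ?_ ?_)
    · rw [abs_mul, abs_of_pos hU0]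
      exact mul_le_mul_of_nonneg_left h6 hU0.le
    · rw [abs_mul, abs_of_pos (show 0 < q U * V by positivity)]
      exact mul_le_mul_of_nonneg_right (mul_le_mul_of_nonneg_right h5 hV0.le) (abs_nonneg _)
  refine h8.trans ?_
  have h9 : 5 / 2 * (|U - V| / U) * (q V * U ^ 2) = 5 / 2 * |U - V| * (q V * U) := by
    field_simp
  rw [h9]
  have h10 : 2 * U + 3 * U * V ≤ 5 / 2 * (q V * U) := by nlinarith
  have h11 := mul_le_mul_of_nonneg_left h10 (abs_nonneg (U - V))
  linarith

theorem log_quot (U V : ℝ) (hU : 1 ≤ U) (hV : 1 ≤ V) :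
    |Real.log (U ^ 2 * (9 * V ^ 2 - 4) / (V ^ 2 * (9 * U ^ 2 - 4)))| ≤
      |U - V| * (U + V) / (U ^ 2 * V ^ 2) := by
  have hU0 : 0 < U := by linarith
  have hV0 : 0 < V := by linarith
  have h1 : 4 * U ^ 2 ≤ 9 * U ^ 2 - 4 := by nlinarith
  have h2 : 4 * V ^ 2 ≤ 9 * V ^ 2 - 4 := by nlinarith
  have h3 : 0 < 9 * U ^ 2 - 4 := by nlinarith
  have h4 : 0 < 9 * V ^ 2 - 4 := by nlinarith
  have h5 := abs_nonneg (U - V)
  have h6 : 0 < U + V := by positivity
  refine abs_log_le _ _ (by positivity) ?_ ?_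
  · have a1 : U ^ 2 * (9 * V ^ 2 - 4) / (V ^ 2 * (9 * U ^ 2 - 4)) - 1 =
        4 * ((V - U) * (U + V)) / (V ^ 2 * (9 * U ^ 2 - 4)) := by
      rw [div_sub_one (show V ^ 2 * (9 * U ^ 2 - 4) ≠ 0 by positivity)]
      congr 1
      ring
    rw [a1, div_le_div_iff₀ (by positivity) (by positivity)]
    have a2 : V - U ≤ |U - V| := by
      rw [abs_sub_comm]
      exact le_abs_self _
    calc 4 * ((V - U) * (U + V)) * (U ^ 2 * V ^ 2) =
        (V - U) * ((U + V) * V ^ 2 * (4 * U ^ 2)) := by ring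
      _ ≤ |U - V| * ((U + V) * V ^ 2 * (4 * U ^ 2)) :=
        mul_le_mul_of_nonneg_right a2 (by positivity)
      _ ≤ |U - V| * ((U + V) * V ^ 2 * (9 * U ^ 2 - 4)) := by
        apply mul_le_mul_of_nonneg_left _ h5
        apply mul_le_mul_of_nonneg_left h1 (by positivity)
      _ = _ := by ring
  · have a1 : (U ^ 2 * (9 * V ^ 2 - 4) / (V ^ 2 * (9 * U ^ 2 - 4)))⁻¹ - 1 =
        4 * ((U - V) * (U + V)) / (U ^ 2 * (9 * V ^ 2 - 4)) := by
      rw [inv_div, div_sub_one (show U ^ 2 * (9 * V ^ 2 - 4) ≠ 0 by positivity)]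
      congr 1
      ring
    rw [a1, div_le_div_iff₀ (by positivity) (by positivity)]
    have a2 : U - V ≤ |U - V| := le_abs_self _
    calc 4 * ((U - V) * (U + V)) * (U ^ 2 * V ^ 2) =
        (U - V) * ((U + V) * U ^ 2 * (4 * V ^ 2)) := by ring
      _ ≤ |U - V| * ((U + V) * U ^ 2 * (4 * V ^ 2)) :=
        mul_le_mul_of_nonneg_right a2 (by positivity)
      _ ≤ |U - V| * ((U + V) * U ^ 2 * (9 * V ^ 2 - 4)) := by
        apply mul_le_mul_of_nonneg_left _ h5
        apply mul_le_mul_of_nonneg_left h2 (by positivity)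
      _ = _ := by ring

theorem paral_real (U V s s' D D' : ℝ) (hU : 1 ≤ U) (hV : 1 ≤ V) (hs : 1 ≤ s)
    (hD : |D| ≤ s) (hSS : s' * U = s * V) (hDD : D' * q V * U ^ 2 = D * q U * V ^ 2) :
    |D * Real.log (lar U) - D' * Real.log (lar V)| +
      s' * |Real.log (U ^ 2 * (9 * V ^ 2 - 4) / (V ^ 2 * (9 * U ^ 2 - 4)))| ≤
      100 * |s - s'| * (1 + Real.log (lar U) + Real.log (lar V)) := by
  have hU0 : 0 < U := by linarith
  have hV0 : 0 < V := by linarith
  have hF : 0 ≤ Real.log (lar U) := Real.log_nonneg (by have := lar_ge U hU; linarith)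
  have hF' : 0 ≤ Real.log (lar V) := Real.log_nonneg (by have := lar_ge V hV; linarith)
  have hqV : 0 < q V := by have := q_ge V hV; linarith
  have hE : |s - s'| = s * (|U - V| / U) := by
    have a1 : (s - s') * U = s * (U - V) := by
      rw [sub_mul, hSS]
      ring
    have a2 : |s - s'| * U = s * |U - V| := by
      have a3 := congrArg abs a1
      rw [abs_mul, abs_mul, abs_of_pos hU0, abs_of_pos (show 0 < s by linarith)] at a3
      exact a3
    field_simp
    exact a2
  have hδ : 0 ≤ |U - V| / U := by positivity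
  have hs' : s' = s * V / U := by
    field_simp
    linarith
  have hs'0 : 0 ≤ s' := by
    rw [hs']
    positivity
  have h1 := log_diff U V hU hV
  have h2 := w_bound U V hU hV
  have h3 := log_quot U V hU hV
  have hD' : D' = D * (q U * V ^ 2 / (q V * U ^ 2)) := by
    field_simp
    linarith
  -- first term
  have h4 : |D * Real.log (lar U) - D' * Real.log (lar V)| ≤
      s * (|U - V| / U * (3 + 2 * Real.log (lar U)) + Real.log (lar V) * (5 / 2 * (|U - V| / U))) := by
    have a1 : D * Real.log (lar U) - D' * Real.log (lar V) =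
        D * ((Real.log (lar U) - Real.log (lar V)) +
          Real.log (lar V) * (1 - q U * V ^ 2 / (q V * U ^ 2))) := by
      rw [hD']
      ring
    rw [a1, abs_mul]
    apply mul_le_mul hD _ (abs_nonneg _) (by linarith)
    refine (abs_add_le _ _).trans (add_le_add h1 ?_)
    rw [abs_mul, abs_of_nonneg hF']
    exact mul_le_mul_of_nonneg_left h2 hF'
  have h5 : s' * |Real.log (U ^ 2 * (9 * V ^ 2 - 4) / (V ^ 2 * (9 * U ^ 2 - 4)))| ≤
      2 * (s * (|U - V| / U)) := by
    refine (mul_le_mul_of_nonneg_left h3 hs'0).trans ?_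
    have a1 : s' * (|U - V| * (U + V) / (U ^ 2 * V ^ 2)) =
        s * (|U - V| / U) * ((U + V) / (U ^ 2 * V)) := by
      rw [hs']
      field_simp
    rw [a1]
    have a2 : (U + V) / (U ^ 2 * V) ≤ 2 := by
      rw [div_le_iff₀ (by positivity)]
      have a3 : 1 ≤ U * V := by nlinarith
      have a4 : U ≤ U ^ 2 * V := by nlinarith
      have a5 : V ≤ U ^ 2 * V := by nlinarith
      linarith
    have a3 : 0 ≤ s * (|U - V| / U) := mul_nonneg (by linarith) hδ
    calc s * (|U - V| / U) * ((U + V) / (U ^ 2 * V)) ≤ s * (|U - V| / U) * 2 :=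
        mul_le_mul_of_nonneg_left a2 a3
      _ = _ := by ring
  rw [hE]
  have h6 : 0 ≤ s * (|U - V| / U) := mul_nonneg (by linarith) hδ
  generalize |U - V| / U = δ at *
  generalize Real.log (lar U) = F at *
  generalize Real.log (lar V) = F' at *
  have h7 : 0 ≤ s * δ * F := mul_nonneg h6 hF
  have h8 : 0 ≤ s * δ * F' := mul_nonneg h6 hF'
  calc _ ≤ s * (δ * (3 + 2 * F) + F' * (5 / 2 * δ)) + 2 * (s * δ) := add_le_add h4 h5
    _ = 5 * (s * δ) + 2 * (s * δ * F) + 5 / 2 * (s * δ * F') := by ring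
    _ ≤ 100 * (s * δ) + 100 * (s * δ * F) + 100 * (s * δ * F') := by linarith
    _ = _ := by ring

theorem paral_ : PARAL := by
  intro u u' S S' d d' hu hu' hS hS' hd hd' hSS hdd
  have hU : (1 : ℝ) ≤ u := by exact_mod_cast hu
  have hV : (1 : ℝ) ≤ u' := by exact_mod_cast hu'
  have hs : (1 : ℝ) ≤ S := by exact_mod_cast hS
  have hD : |(d : ℝ)| ≤ S := by exact_mod_cast hd
  have hSS' : (S' : ℝ) * u = S * u' := by exact_mod_cast hSS
  exact paral_real u u' S S' d d' hU hV hs hD hSS' hdd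

end Pool.Agent.N592.MX2
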