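import Pool.Agent.N646.RO.Stm
import Pool.Agent.H387R2.MB11
import Pool.Agent.Y877.RoC

/-!
# RQ/MB (helper592): moments of the number of rough integers in intervals of length `log N`
-/

set_option autoImplicit false

namespace Pool.Agent.N592.RQ

open Finset Filter Topology
open Pool.Agent.N646.RO (Rgh)
open Pool.Agent.H378R2 Pool.Agent.H387R2 Pool.Agent.H387R2.MB

open Classical in
/-- the number of rough integers -/
noncomputable def AA (δ : ℝ) (N w n : ℕ) : ℕ :=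
  ((range w).filter (fun v : ℕ => Rgh δ N (n + v))).card

open Classical in
/-- the admissible shifts -/
noncomputable def SB (y w b : ℕ) : Finset ℕ :=
  (range w).filter (fun v => Nat.Coprime (Uni.WW y) (b + v))

theorem pow_le_choose (Z r : ℕ) : (Z : ℝ) ^ r ≤
    (2 * r : ℝ) ^ r + 2 ^ r * r.factorial * ((Z.choose r : ℕ) : ℝ) := by
  have hc : (0:ℝ) ≤ ((Z.choose r : ℕ) : ℝ) := Nat.cast_nonneg _
  rcases le_or_gt Z (2 * r) with h | h
  · have h3 : (Z:ℝ) ^ r ≤ (2 * r : ℝ) ^ r := by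
      apply pow_le_pow_left₀ (Nat.cast_nonneg _)
      exact_mod_cast h
    have h4 : (0:ℝ) ≤ 2 ^ r * r.factorial * ((Z.choose r : ℕ) : ℝ) := by positivity
    linarith
  · have h3 := Nat.pow_le_choose (α := ℝ) r Z
    have hf : (0:ℝ) < r.factorial := by exact_mod_cast Nat.factorial_pos _
    rw [div_le_iff₀ hf] at h3
    have h4 : (Z:ℝ) / 2 ≤ ((Z + 1 - r : ℕ) : ℝ) := by
      rw [Nat.cast_sub (by omega)]
      push_cast
      have : (2 * r : ℝ) < Z := by exact_mod_cast h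
      linarith
    have h5 : ((Z:ℝ) / 2) ^ r ≤ (((Z + 1 - r : ℕ)) : ℝ) ^ r :=
      pow_le_pow_left₀ (by positivity) h4 _
    have h6 : (Z:ℝ) ^ r = 2 ^ r * ((Z:ℝ) / 2) ^ r := by
      rw [← mul_pow]; congr 1; ring
    rw [h6]
    have h8 : ((Z:ℝ) / 2) ^ r ≤ ((Z.choose r : ℕ) : ℝ) * r.factorial := h5.trans h3
    have h9 : 2 ^ r * ((Z:ℝ) / 2) ^ r ≤ 2 ^ r * (((Z.choose r : ℕ) : ℝ) * r.factorial) :=
      mul_le_mul_of_nonneg_left h8 (by positivity)
    have h10 : (0:ℝ) ≤ (2 * r : ℝ) ^ r := by positivity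
    linarith

open Classical in
theorem AA_le {δ X : ℝ} {N w y b n : ℕ} (hn : n ≡ b [MOD Uni.WW y])
    (h1 : ∀ p : ℕ, p.Prime → p ≤ y → Real.log p ≤ δ * Real.log N)
    (h2 : ∀ p ∈ PS δ X, Real.log p ≤ δ * Real.log N) :
    AA δ N w n ≤ ((SB y w b).filter (fun v => Rg δ X (n + v))).card := by
  unfold AA SB
  apply card_le_card
  intro v hv
  rw [mem_filter] at hv
  rw [mem_filter, mem_filter]
  have key : ∀ p : ℕ, p.Prime → Real.log p ≤ δ * Real.log N → ¬ p ∣ n + v := by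
    intro p hp hlog hd
    apply hv.2 p hp hlog
    exact_mod_cast hd
  refine ⟨⟨hv.1, ?_⟩, ?_⟩
  · have h3 : Nat.Coprime (Uni.WW y) (n + v) := by
      rw [Uni.WW]
      apply Nat.Coprime.prod_left
      intro p hp
      have hpp := Nat.prime_of_mem_primesBelow hp
      rw [hpp.coprime_iff_not_dvd]
      apply key p hpp
      apply h1 p hpp
      have := Nat.lt_of_mem_primesBelow hp
      omega
    have h4 : n + v ≡ b + v [MOD Uni.WW y] := hn.add_right v
    rw [Nat.coprime_comm] at h3 ⊢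
    have h5 := h4.gcd_eq
    unfold Nat.Coprime at *
    rw [← h5]
    exact h3
  · intro p hp
    exact key p (mem_PS.1 hp).1 (h2 p hp)

open Classical in
/-- the upper bound -/
def UppX (r : ℕ) (δ C1 X : ℝ) (M y : ℕ) : Prop :=
  ∀ (b : ℕ) (R : Finset ℕ), R.card = r → (∀ a ∈ R, a ≤ M) →
    ∑ n ∈ Icc 1 ⌊3 * X⌋₊, nu X (Uni.WW y) b n *
      (if ∀ a ∈ R, Rg δ X (n + a) then 1 else 0) ≤ C1 * UU r X y

open Classical in
/-- one class -/
theorem one_class {δ C1 X : ℝ} {N w M y b r : ℕ} (hC1 : 0 < C1) (hw : w ≤ M + 1)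
    (hU : UppX r δ C1 X M y) (hL : 0 ≤ LL X)
    (h1 : ∀ p : ℕ, p.Prime → p ≤ y → Real.log p ≤ δ * Real.log N)
    (h2 : ∀ p ∈ PS δ X, Real.log p ≤ δ * Real.log N) :
    ∑ n ∈ Icc 1 ⌊3 * X⌋₊, nu X (Uni.WW y) b n * (AA δ N w n : ℝ) ^ r ≤
      (2 * r : ℝ) ^ r * ∑ n ∈ Icc 1 ⌊3 * X⌋₊, nu X (Uni.WW y) b n +
      2 ^ r * r.factorial * (((SB y w b).card : ℝ) ^ r * (C1 * UU r X y)) := by
  have hterm : ∀ n ∈ Icc 1 ⌊3 * X⌋₊, nu X (Uni.WW y) b n * (AA δ N w n : ℝ) ^ r ≤
      nu X (Uni.WW y) b n * ((2 * r : ℝ) ^ r + 2 ^ r * r.factorial *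
        ∑ R ∈ (SB y w b).powersetCard r, (if ∀ a ∈ R, Rg δ X (n + a) then (1:ℝ) else 0)) := by
    intro n _
    by_cases hn : n ≡ b [MOD Uni.WW y]
    · apply mul_le_mul_of_nonneg_left _ (nu_nonneg _ _ _ _)
      have h3 := AA_le (δ := δ) (X := X) (N := N) (w := w) hn h1 h2
      rw [sum_powerset_choose]
      refine le_trans ?_ (pow_le_choose _ r)
      exact pow_le_pow_left₀ (Nat.cast_nonneg _) (by exact_mod_cast h3) r
    · have h3 : nu X (Uni.WW y) b n = 0 := by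
        unfold nu
        rw [if_neg hn]
      rw [h3, zero_mul, zero_mul]
  refine (sum_le_sum hterm).trans ?_
  have h3 : ∑ n ∈ Icc 1 ⌊3 * X⌋₊, nu X (Uni.WW y) b n * ((2 * r : ℝ) ^ r + 2 ^ r * r.factorial *
        ∑ R ∈ (SB y w b).powersetCard r, (if ∀ a ∈ R, Rg δ X (n + a) then (1:ℝ) else 0)) =
      (2 * r : ℝ) ^ r * ∑ n ∈ Icc 1 ⌊3 * X⌋₊, nu X (Uni.WW y) b n +
      2 ^ r * r.factorial * ∑ R ∈ (SB y w b).powersetCard r, ∑ n ∈ Icc 1 ⌊3 * X⌋₊,
        nu X (Uni.WW y) b n * (if ∀ a ∈ R, Rg δ X (n + a) then (1:ℝ) else 0) := by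
    rw [sum_comm, mul_sum, mul_sum, ← sum_add_distrib]
    apply sum_congr rfl
    intro n _
    rw [← mul_sum]
    ring
  rw [h3]
  have h4 : ∑ R ∈ (SB y w b).powersetCard r, ∑ n ∈ Icc 1 ⌊3 * X⌋₊,
        nu X (Uni.WW y) b n * (if ∀ a ∈ R, Rg δ X (n + a) then (1:ℝ) else 0) ≤
      ((SB y w b).card : ℝ) ^ r * (C1 * UU r X y) := by
    calc _ ≤ ∑ _R ∈ (SB y w b).powersetCard r, C1 * UU r X y := by
          apply sum_le_sum
          intro R hR
          rw [mem_powersetCard] at hR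
          exact hU b R hR.2 (fun a ha => by
            have h5 := hR.1 ha
            unfold SB at h5
            rw [mem_filter, mem_range] at h5
            omega)
      _ = (((SB y w b).card.choose r : ℕ) : ℝ) * (C1 * UU r X y) := by
          rw [sum_const, card_powersetCard, nsmul_eq_mul]
      _ ≤ _ := by
          apply mul_le_mul_of_nonneg_right _ (mul_nonneg hC1.le (UU_nonneg r hL y))
          exact_mod_cast Nat.choose_le_pow _ _
  have h5 := mul_le_mul_of_nonneg_left h4 (by positivity : (0:ℝ) ≤ 2 ^ r * r.factorial)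
  linarith

/-- the classes partition the integers -/
theorem sum_nu (X : ℝ) (W n : ℕ) (hW : 0 < W) : ∑ b ∈ range W, nu X W b n = Phi (n / X) := by
  rw [sum_eq_single_of_mem (n % W) (mem_range.2 (Nat.mod_lt _ hW))]
  · unfold nu
    rw [if_pos]
    exact (Nat.mod_modEq n W).symm
  · intro b hb hne
    unfold nu
    rw [if_neg]
    intro h
    apply hne
    have h1 : n % W = b % W := h
    rw [h1, Nat.mod_eq_of_lt (mem_range.1 hb)]

theorem rD_one (y : ℕ) : Pool.Agent.Y877.RO.rD 1 y = rho y := by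
  rw [Pool.Agent.Y877.RO.rho_split 1 y]
  have h1 : Pool.Agent.Y877.RO.dD 1 y = 1 := by
    unfold Pool.Agent.Y877.RO.dD
    apply prod_eq_one
    intro p hp
    rw [mem_filter] at hp
    have h2 := (Nat.prime_of_mem_primesBelow hp.1).one_lt
    have h3 := Nat.dvd_one.1 hp.2
    omega
  rw [h1, one_mul]

theorem card_SB {y w b : ℕ} (hy : 2 ≤ y) (hw : 4 ^ (y / 2) ≤ w) :
    ((SB y w b).card : ℝ) ≤ 8 * w * rho y := by
  classical
  have h := Pool.Agent.Y877.RO.shift_upper 1 y b 0 w hy hw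
  rw [rD_one] at h
  refine le_trans (le_of_eq ?_) h
  unfold SB
  rw [zero_add, Nat.Ico_zero_eq_range]
  simp only [one_mul]

/-- all classes -/
theorem all_class {δ C1 X : ℝ} {N w M y r : ℕ} (hC1 : 0 < C1) (hw : w ≤ M + 1)
    (hU : UppX r δ C1 X M y) (hL : 0 < LL X) (hy : 2 ≤ y) (hw4 : 4 ^ (y / 2) ≤ w)
    (h1 : ∀ p : ℕ, p.Prime → p ≤ y → Real.log p ≤ δ * Real.log N)
    (h2 : ∀ p ∈ PS δ X, Real.log p ≤ δ * Real.log N) :
    ∑ n ∈ Icc 1 ⌊3 * X⌋₊, Phi (n / X) * (AA δ N w n : ℝ) ^ r ≤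
      ((2 * r : ℝ) ^ r + 2 ^ r * r.factorial * C1 * (8 * w / LL X) ^ r) * MPhi X := by
  classical
  have hW := Uni.WW_pos y
  have hWr : (0 : ℝ) < Uni.WW y := by exact_mod_cast hW
  have hrho := rho_pos y
  have hsum := sum_le_sum fun b (_ : b ∈ range (Uni.WW y)) =>
    one_class (b := b) (r := r) hC1 hw hU hL.le h1 h2
  have e1 : ∑ b ∈ range (Uni.WW y), ∑ n ∈ Icc 1 ⌊3 * X⌋₊,
      nu X (Uni.WW y) b n * (AA δ N w n : ℝ) ^ r =
      ∑ n ∈ Icc 1 ⌊3 * X⌋₊, Phi (n / X) * (AA δ N w n : ℝ) ^ r := by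
    rw [sum_comm]
    apply sum_congr rfl
    intro n _
    rw [← sum_mul, sum_nu X _ n hW]
  have e2 : ∑ b ∈ range (Uni.WW y), ∑ n ∈ Icc 1 ⌊3 * X⌋₊, nu X (Uni.WW y) b n = MPhi X := by
    rw [sum_comm]
    unfold MPhi
    apply sum_congr rfl
    intro n _
    exact sum_nu X _ n hW
  rw [e1, sum_add_distrib, ← mul_sum, e2, ← mul_sum] at hsum
  refine hsum.trans ?_
  rw [add_mul]
  apply add_le_add le_rfl
  have e3 : ∑ b ∈ range (Uni.WW y), ((SB y w b).card : ℝ) ^ r * (C1 * UU r X y) ≤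
      Uni.WW y * ((8 * w * rho y) ^ r * (C1 * UU r X y)) := by
    calc _ ≤ ∑ _b ∈ range (Uni.WW y), (8 * w * rho y) ^ r * (C1 * UU r X y) := by
          apply sum_le_sum
          intro b _
          apply mul_le_mul_of_nonneg_right _ (mul_nonneg hC1.le (UU_nonneg r hL.le y))
          exact pow_le_pow_left₀ (Nat.cast_nonneg _) (card_SB hy hw4) r
      _ = _ := by rw [sum_const, card_range, nsmul_eq_mul]
  have e4 : (Uni.WW y : ℝ) * ((8 * w * rho y) ^ r * (C1 * UU r X y)) =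
      C1 * (8 * w / LL X) ^ r * MPhi X := by
    unfold UU
    rw [div_pow, mul_pow (8 * (w : ℝ)), mul_pow (LL X)]
    field_simp
  rw [e4] at e3
  calc _ ≤ 2 ^ r * (r.factorial : ℝ) * (C1 * (8 * w / LL X) ^ r * MPhi X) :=
        mul_le_mul_of_nonneg_left e3 (by positivity)
    _ = _ := by ring

/-! ## One range -/

theorem log_four_thirds : (1 / 4 : ℝ) ≤ Real.log (4 / 3) := by
  have h1 : Real.log (Real.exp 1) ≤ Real.log ((4 / 3 : ℝ) ^ 4) := by
    apply Real.log_le_log (Real.exp_pos _)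
    have := Real.exp_one_lt_d9
    norm_num
    linarith
  rw [Real.log_exp, Real.log_pow] at h1
  push_cast at h1
  linarith

theorem log_two_one : Real.log (21 / 10) ≤ (3 / 4 : ℝ) := by
  have h1 : Real.log ((21 / 10 : ℝ) ^ 4) ≤ Real.log (Real.exp 1 ^ 3) := by
    apply Real.log_le_log (by positivity)
    have h2 := Real.exp_one_gt_d9
    have h3 : (2.7182818283 : ℝ) ^ 3 ≤ Real.exp 1 ^ 3 :=
      pow_le_pow_left₀ (by norm_num) h2.le 3
    refine le_trans ?_ h3
    norm_num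
  rw [Real.log_pow, Real.log_pow, Real.log_exp] at h1
  push_cast at h1
  linarith

theorem Phi_ge {u : ℝ} (h1 : 4 / 3 ≤ u) (h2 : u ≤ 21 / 10) : 1 / 4 ≤ Phi u := by
  unfold Phi
  refine le_trans ?_ (le_max_right _ _)
  have h3 : (1 / 4 : ℝ) ≤ Real.log u :=
    log_four_thirds.trans (Real.log_le_log (by norm_num) h1)
  have h4 : Real.log u ≤ 3 / 4 :=
    (Real.log_le_log (by linarith) h2).trans log_two_one
  have h5 : |Real.log u - 1 / 2| ≤ 1 / 4 := by
    rw [abs_le]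
    constructor <;> linarith
  linarith

theorem Phi_nonneg' (u : ℝ) : 0 ≤ Phi u := le_max_left _ _

theorem one_range {δ : ℝ} {r : ℕ} (hδ : 0 < δ) {C1 : ℝ} (hC1 : 0 < C1)
    (hup : ∀ C : ℝ, ∀ᶠ N : ℕ in atTop,
      Upp r δ C1 N ⌊Real.log N ^ C⌋₊ ⌊Real.log (Real.log N)⌋₊)
    (c : ℝ) (hc1 : 1 / 30 ≤ c) (hc2 : c ≤ 5) : ∀ᶠ N : ℕ in atTop,
    ∑ n ∈ (Icc (N / 20) (4 * N)).filter (fun n : ℕ => c * N ≤ n ∧ (n : ℝ) ≤ 3 / 2 * c * N),
      (AA δ N (⌊Real.log N⌋₊ + 1) n : ℝ) ^ r ≤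
      30 * ((2 * r : ℝ) ^ r + 2 ^ r * r.factorial * C1 * 6400 ^ r) * N := by
  classical
  have tN : Tendsto (fun N : ℕ => (N : ℝ)) atTop atTop := tendsto_natCast_atTop_atTop
  have tL : Tendsto (fun N : ℕ => Real.log (N : ℝ)) atTop atTop := Real.tendsto_log_atTop.comp tN
  have tLL : Tendsto (fun N : ℕ => Real.log (Real.log (N : ℝ))) atTop atTop :=
    Real.tendsto_log_atTop.comp tL
  have tN' : Tendsto (fun N : ℕ => ⌊3 * c * N⌋₊) atTop atTop :=
    tendsto_nat_floor_atTop.comp (tN.const_mul_atTop (by linarith))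
  -- `log (2 L) ≤ δ L`
  have hlog : ∀ᶠ L : ℝ in atTop, Real.log (2 * L) ≤ δ * L := by
    have h1 := Real.isLittleO_log_id_atTop.bound (show (0 : ℝ) < δ / 2 by positivity)
    have h2 : Tendsto (fun L : ℝ => 2 * L) atTop atTop := tendsto_id.const_mul_atTop (by norm_num)
    filter_upwards [h2.eventually h1, eventually_ge_atTop 1] with L h3 h4
    simp only [id, Real.norm_eq_abs] at h3
    rw [abs_of_nonneg (show (0:ℝ) ≤ 2 * L by linarith)] at h3
    have h5 := le_abs_self (Real.log (2 * L))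
    linarith
  filter_upwards [tN'.eventually (hup 2), tN.eventually_ge_atTop 1000,
    tL.eventually hlog, tL.eventually_ge_atTop 10, (tLL.comp tN').eventually_ge_atTop 3,
    (tL.comp tN').eventually_ge_atTop 3] with N hU hN hlogN hL10 hyN hLN'
  obtain ⟨N', hN'⟩ : ∃ N' : ℕ, N' = ⌊3 * c * N⌋₊ := ⟨_, rfl⟩
  simp only [Function.comp] at hyN hLN'
  rw [← hN'] at hU hyN hLN'
  obtain ⟨X, hX⟩ : ∃ X : ℝ, X = (N' : ℝ) / 4 := ⟨_, rfl⟩
  obtain ⟨y, hy⟩ : ∃ y : ℕ, y = ⌊Real.log (Real.log (N' : ℝ))⌋₊ := ⟨_, rfl⟩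
  obtain ⟨M, hM⟩ : ∃ M : ℕ, M = ⌊Real.log (N' : ℝ) ^ (2 : ℝ)⌋₊ := ⟨_, rfl⟩
  rw [← hy, ← hM] at hU
  have hN'1 : (N' : ℝ) ≤ 3 * c * N := by
    rw [hN']
    exact Nat.floor_le (by nlinarith)
  have hN'2 : 3 * c * N - 1 ≤ (N' : ℝ) := by
    rw [hN']
    linarith [Nat.lt_floor_add_one (3 * c * N)]
  have hcN : (N : ℝ) / 30 ≤ c * N := by nlinarith
  have hcN2 : c * N ≤ 5 * N := by nlinarith
  have hN'3 : (N : ℝ) / 20 ≤ N' := by linarith
  have hN'4 : (N' : ℝ) ≤ 15 * N := by nlinarith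
  have hLN0 : (0 : ℝ) < Real.log N := by linarith
  have hN0 : (0 : ℝ) < N := by linarith
  have hN'0 : (0 : ℝ) < N' := by linarith
  -- logarithms
  have hl1 : Real.log (N' : ℝ) ≤ 2 * Real.log N := by
    have h1 : (N' : ℝ) ≤ (N : ℝ) ^ 2 := by nlinarith
    have h2 := Real.log_le_log hN'0 h1
    rw [Real.log_pow] at h2
    push_cast at h2
    exact h2
  have hl2 : Real.log (N : ℝ) ≤ Real.log N' + 3 := by
    have h1 : (N : ℝ) ≤ Real.exp 1 ^ 3 * N' := by
      have h2 := Real.exp_one_gt_d9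
      have h3 : (2.7182818283 : ℝ) ^ 3 ≤ Real.exp 1 ^ 3 :=
        pow_le_pow_left₀ (by norm_num) h2.le 3
      have h4 : (20 : ℝ) ≤ Real.exp 1 ^ 3 := by
        refine le_trans ?_ h3
        norm_num
      nlinarith
    have h2 := Real.log_le_log hN0 h1
    rw [Real.log_mul (by positivity) hN'0.ne', Real.log_pow, Real.log_exp] at h2
    push_cast at h2
    linarith
  have hXN : (N : ℝ) / 80 ≤ X := by rw [hX]; linarith
  have hXN2 : X ≤ 15 / 4 * N := by rw [hX]; linarith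
  have hX0 : 0 < X := by linarith
  have hl3 : Real.log X ≤ 2 * Real.log N := by
    have h1 : X ≤ (N : ℝ) ^ 2 := by nlinarith
    have h2 := Real.log_le_log hX0 h1
    rw [Real.log_pow] at h2
    push_cast at h2
    exact h2
  have hl4 : Real.log N / 2 ≤ Real.log X := by
    have h1 : (N : ℝ) ≤ Real.exp 1 ^ 5 * X := by
      have h2 := Real.exp_one_gt_d9
      have h3 : (2.7182818283 : ℝ) ^ 5 ≤ Real.exp 1 ^ 5 :=
        pow_le_pow_left₀ (by norm_num) h2.le 5
      have h4 : (80 : ℝ) ≤ Real.exp 1 ^ 5 := by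
        refine le_trans ?_ h3
        norm_num
      nlinarith
    have h2 := Real.log_le_log hN0 h1
    rw [Real.log_mul (by positivity) hX0.ne', Real.log_pow, Real.log_exp] at h2
    push_cast at h2
    linarith
  have hLLX : LL X = Real.log X / 200 := rfl
  have hLL0 : 0 < LL X := by rw [hLLX]; linarith
  -- the parameters
  obtain ⟨w, hw⟩ : ∃ w : ℕ, w = ⌊Real.log (N : ℝ)⌋₊ + 1 := ⟨_, rfl⟩
  rw [← hw]
  have hw1 : Real.log N < w := by
    rw [hw]
    push_cast
    exact Nat.lt_floor_add_one _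
  have hw2 : (w : ℝ) ≤ 2 * Real.log N := by
    rw [hw]
    push_cast
    have := Nat.floor_le hLN0.le
    linarith
  have hwM : w ≤ M + 1 := by
    rw [hw, hM]
    apply Nat.succ_le_succ
    apply Nat.floor_le_floor
    rw [show (2 : ℝ) = ((2 : ℕ) : ℝ) by norm_num, Real.rpow_natCast]
    nlinarith
  have hy1 : (y : ℝ) ≤ Real.log (Real.log (N' : ℝ)) := by
    rw [hy]
    exact Nat.floor_le (by linarith)
  have hy3 : 3 ≤ y := by
    rw [hy]
    apply Nat.le_floor
    exact_mod_cast hyN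
  have hy4 : 4 ^ (y / 2) ≤ w := by
    have h1 : (4 : ℕ) ^ (y / 2) ≤ 2 ^ y := by
      calc (4 : ℕ) ^ (y / 2) = 2 ^ (2 * (y / 2)) := by rw [pow_mul]; norm_num
        _ ≤ 2 ^ y := Nat.pow_le_pow_right (by norm_num) (by omega)
    refine h1.trans ?_
    have h2 : (2 : ℝ) ^ y * (1.35 : ℝ) ^ y ≤ Real.exp 1 ^ y := by
      rw [← mul_pow]
      apply pow_le_pow_left₀ (by norm_num)
      have := Real.exp_one_gt_d9
      norm_num
      linarith
    have h3 : Real.exp 1 ^ y ≤ Real.log N' := by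
      rw [Real.exp_one_pow]
      calc Real.exp y ≤ Real.exp (Real.log (Real.log (N' : ℝ))) := Real.exp_le_exp.2 hy1
        _ = Real.log N' := Real.exp_log (by linarith)
    have h4 : (2 : ℝ) ≤ (1.35 : ℝ) ^ y := by
      calc (2 : ℝ) ≤ (1.35 : ℝ) ^ 3 := by norm_num
        _ ≤ _ := pow_le_pow_right₀ (by norm_num) hy3
    have h5 : (0 : ℝ) < 2 ^ y := by positivity
    have h6 : (2 : ℝ) ^ y ≤ Real.log N := by nlinarith
    have h7 : ((2 ^ y : ℕ) : ℝ) ≤ (w : ℝ) := by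
      push_cast
      linarith
    exact_mod_cast h7
  have hh1 : ∀ p : ℕ, p.Prime → p ≤ y → Real.log p ≤ δ * Real.log N := by
    intro p hp hpy
    have h1 : Real.log p ≤ p := Real.log_le_self (Nat.cast_nonneg p)
    have h2 : (p : ℝ) ≤ y := by exact_mod_cast hpy
    have h3 : Real.log (Real.log (N' : ℝ)) ≤ Real.log (2 * Real.log N) :=
      Real.log_le_log (by linarith) hl1
    linarith
  have hh2 : ∀ p ∈ PS δ X, Real.log p ≤ δ * Real.log N := by
    intro p hp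
    have h1 := (mem_PS.1 hp).2
    have hp0 : (0 : ℝ) < p := by exact_mod_cast (mem_PS.1 hp).1.pos
    have h2 := Real.log_le_log hp0 h1
    rw [Real.log_exp, hLLX] at h2
    have h3 : δ * (Real.log X / 200) ≤ δ * Real.log N := mul_le_mul_of_nonneg_left (by linarith) hδ.le
    linarith
  have hUX : UppX r δ C1 X M y := by
    intro b R h1 h2
    have := hU b R h1 h2
    rw [hX]
    exact this
  have key := all_class (r := r) hC1 hwM hUX hLL0 (by omega) hy4 hh1 hh2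
  have hMP := MPhi_le X (by linarith)
  have hq : 8 * (w : ℝ) / LL X ≤ 6400 := by
    rw [div_le_iff₀ hLL0, hLLX]
    linarith
  have hq0 : 0 ≤ 8 * (w : ℝ) / LL X := by positivity
  -- comparison
  have hsub : ∑ n ∈ (Icc (N / 20) (4 * N)).filter
      (fun n : ℕ => c * N ≤ n ∧ (n : ℝ) ≤ 3 / 2 * c * N), (AA δ N w n : ℝ) ^ r ≤
      4 * ∑ n ∈ Icc 1 ⌊3 * X⌋₊, Phi (n / X) * (AA δ N w n : ℝ) ^ r := by
    rw [mul_sum]
    calc _ ≤ ∑ n ∈ (Icc (N / 20) (4 * N)).filter
              (fun n : ℕ => c * N ≤ n ∧ (n : ℝ) ≤ 3 / 2 * c * N),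
              4 * (Phi (n / X) * (AA δ N w n : ℝ) ^ r) := by
          apply sum_le_sum
          intro n hn
          rw [mem_filter] at hn
          obtain ⟨_, hn1, hn2⟩ := hn
          have h1 : 1 / 4 ≤ Phi ((n : ℝ) / X) := by
            apply Phi_ge
            · rw [le_div_iff₀ hX0]
              rw [hX]
              linarith
            · rw [div_le_iff₀ hX0]
              rw [hX]
              linarith
          have h2 : (0 : ℝ) ≤ (AA δ N w n : ℝ) ^ r := by positivity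
          nlinarith
      _ ≤ _ := by
          apply sum_le_sum_of_subset_of_nonneg
          · intro n hn
            rw [mem_filter] at hn
            obtain ⟨_, hn1, hn2⟩ := hn
            rw [mem_Icc]
            constructor
            · have h1 : (0 : ℝ) < n := by linarith
              exact_mod_cast h1
            · apply Nat.le_floor
              rw [hX]
              linarith
          · intro n _ _
            have h1 := Phi_nonneg' ((n : ℝ) / X)
            positivity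
  refine hsub.trans ?_
  have hbd : ((2 * r : ℝ) ^ r + 2 ^ r * r.factorial * C1 * (8 * w / LL X) ^ r) * MPhi X ≤
      ((2 * r : ℝ) ^ r + 2 ^ r * r.factorial * C1 * 6400 ^ r) * (15 / 2 * N) := by
    apply mul_le_mul
    · have h1 := pow_le_pow_left₀ hq0 hq r
      have h2 : (0 : ℝ) ≤ 2 ^ r * r.factorial * C1 := by positivity
      have h3 := mul_le_mul_of_nonneg_left h1 h2
      linarith
    · linarith
    · exact MPhi_nonneg X
    · positivity
  calc _ ≤ 4 * (((2 * r : ℝ) ^ r + 2 ^ r * r.factorial * C1 * 6400 ^ r) * (15 / 2 * N)) := by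
        linarith [key.trans hbd]
    _ = _ := by ring

theorem sum_biUnion_le' {ι : Type} [DecidableEq ι] (s : Finset ι) (t : ι → Finset ℕ) (f : ℕ → ℝ)
    (hf : ∀ n, 0 ≤ f n) : ∑ n ∈ s.biUnion t, f n ≤ ∑ i ∈ s, ∑ n ∈ t i, f n := by
  induction s using Finset.induction_on with
  | empty => simp
  | insert a s ha ih =>
    rw [biUnion_insert, sum_insert ha]
    have h1 := sum_union_inter (s₁ := t a) (s₂ := s.biUnion t) (f := f)
    have h2 : 0 ≤ ∑ n ∈ t a ∩ s.biUnion t, f n := sum_nonneg fun n _ => hf n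
    linarith

/-- **MB** -/
theorem main : Pool.Agent.N646.RO.S_MB := by
  classical
  intro δ r hδ
  obtain ⟨C1, hC1, hup⟩ := upp_eventually r hδ
  obtain ⟨B, hB⟩ : ∃ B : ℝ, B = 30 * ((2 * r : ℝ) ^ r + 2 ^ r * r.factorial * C1 * 6400 ^ r) :=
    ⟨_, rfl⟩
  have hB0 : 0 < B := by rw [hB]; positivity
  refine ⟨12 * B, by positivity, ?_⟩
  have hcj : ∀ j ∈ range 12, 1 / 30 ≤ (3 / 2 : ℝ) ^ j / 30 ∧ (3 / 2 : ℝ) ^ j / 30 ≤ 5 := by
    intro j hj
    have h1 : (1 : ℝ) ≤ (3 / 2) ^ j := one_le_pow₀ (by norm_num)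
    have h2 : (3 / 2 : ℝ) ^ j ≤ (3 / 2) ^ 12 :=
      pow_le_pow_right₀ (by norm_num) (mem_range.1 hj).le
    have h3 : (3 / 2 : ℝ) ^ 12 ≤ 150 := by norm_num
    constructor <;> linarith
  have hall := (eventually_all_finset (range 12)).2 fun j hj =>
    one_range (r := r) hδ hC1 hup ((3 / 2 : ℝ) ^ j / 30) (hcj j hj).1 (hcj j hj).2
  filter_upwards [hall, eventually_ge_atTop 60] with N hN hN60
  have hN60' : (60 : ℝ) ≤ N := by exact_mod_cast hN60
  rw [← hB] at hN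
  have hcover : Icc (N / 20) (4 * N) ⊆ (range 12).biUnion (fun j =>
      (Icc (N / 20) (4 * N)).filter (fun n : ℕ => (3 / 2 : ℝ) ^ j / 30 * N ≤ n ∧
        (n : ℝ) ≤ 3 / 2 * ((3 / 2 : ℝ) ^ j / 30) * N)) := by
    intro n hn
    by_contra hcon
    rw [mem_biUnion] at hcon
    push Not at hcon
    rw [mem_Icc] at hn
    have h0 : (N : ℝ) / 30 ≤ n := by
      have h1 : N < 20 * (n + 1) := by omega
      have h2 : (N : ℝ) < 20 * (n + 1) := by exact_mod_cast h1
      linarith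
    have hind : ∀ j : ℕ, j ≤ 12 → (3 / 2 : ℝ) ^ j / 30 * N ≤ n := by
      intro j
      induction j with
      | zero => intro _; rw [pow_zero]; linarith
      | succ j ih =>
        intro hj
        have h1 := ih (by omega)
        by_contra hlt
        push Not at hlt
        apply hcon j (mem_range.2 (by omega))
        rw [mem_filter, mem_Icc]
        refine ⟨hn, h1, ?_⟩
        rw [pow_succ] at hlt
        linarith
    have h12 := hind 12 le_rfl
    have hn4 : (n : ℝ) ≤ 4 * N := by exact_mod_cast hn.2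
    norm_num at h12
    linarith
  calc _ ≤ ∑ n ∈ (range 12).biUnion (fun j =>
            (Icc (N / 20) (4 * N)).filter (fun n : ℕ => (3 / 2 : ℝ) ^ j / 30 * N ≤ n ∧
              (n : ℝ) ≤ 3 / 2 * ((3 / 2 : ℝ) ^ j / 30) * N)),
            (AA δ N (⌊Real.log N⌋₊ + 1) n : ℝ) ^ r :=
        sum_le_sum_of_subset_of_nonneg hcover fun _ _ _ => by positivity
    _ ≤ ∑ j ∈ range 12, ∑ n ∈ (Icc (N / 20) (4 * N)).filter (fun n : ℕ =>
        (3 / 2 : ℝ) ^ j / 30 * N ≤ n ∧ (n : ℝ) ≤ 3 / 2 * ((3 / 2 : ℝ) ^ j / 30) * N),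
        (AA δ N (⌊Real.log N⌋₊ + 1) n : ℝ) ^ r := by
        apply sum_biUnion_le'
        intro _; positivity
    _ ≤ ∑ _j ∈ range 12, B * N := sum_le_sum fun j hj => hN j hj
    _ = 12 * B * N := by
        rw [sum_const, card_range, nsmul_eq_mul]
        push_cast
        ring

end Pool.Agent.N592.RQ
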